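import Mathlib
import Pool.Agent.S01012

/-!
# Pythagoras numbers of two-dimensional regular local rings: `p(R) = 3` and `p(K) = 2`

The Pythagoras number is defined as in the problem file (the least `n ≥ 1`, infinite if there is
none), and regular local rings are those of Mathlib.
-/

set_option autoImplicit false

namespace Pool.Agent.Results.MP_293fae_al.ThreeAgainstTwo

/-- The Pythagoras number: the least `n ≥ 1` such that every sum of squares is a sum of `n`
squares, and infinite if there is none. -/
noncomputable def pythagoras (A : Type) [CommRing A] : ℕ∞ :=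
  sInf {m : ℕ∞ | ∃ n : ℕ, 1 ≤ n ∧ m = (n : ℕ∞) ∧
    ∀ x : A, IsSumSq x → ∃ f : Fin n → A, x = ∑ j, f j ^ 2}

theorem sumSq_mod_two {R : Type} [CommRing R] {x : R} (hx : IsSumSq x) :
    ∃ s t : R, x = s ^ 2 + 2 * t := by
  induction hx with
  | zero => exact ⟨0, 0, by ring⟩
  | sq_add a _ ih =>
    obtain ⟨s, t, rfl⟩ := ih
    exact ⟨a + s, t - a * s, by ring⟩

theorem three_squares {R : Type} [CommRing R] [IsLocalRing R] (i : R) (hi : i * i = -1) (x : R)
    (hx : IsSumSq x) : ∃ f : Fin 3 → R, x = ∑ j, f j ^ 2 := by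
  obtain ⟨s, t, rfl⟩ := sumSq_mod_two hx
  rcases IsLocalRing.isUnit_or_isUnit_of_isUnit_add (a := s) (b := 1 - s) (by simp) with h | h
  · obtain ⟨v, hv⟩ := h.exists_right_inv
    refine ⟨![s + t * v, i * (t * v), 0], ?_⟩
    rw [Fin.sum_univ_three]
    simp only [Matrix.cons_val_zero, Matrix.cons_val_one, Matrix.cons_val]
    linear_combination (-2 * t) * hv - (t * v) ^ 2 * hi
  · obtain ⟨v, hv⟩ := h.exists_right_inv
    refine ⟨![1, (s - 1) - (t + s - 1) * v, i * ((t + s - 1) * v)], ?_⟩
    rw [Fin.sum_univ_three]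
    simp only [Matrix.cons_val_zero, Matrix.cons_val_one, Matrix.cons_val]
    linear_combination (-2 * (t + s - 1)) * hv - ((t + s - 1) * v) ^ 2 * hi

theorem two_ne_zero_of {R : Type} [CommRing R] [IsDomain R] {i : R} (hi : i * i = -1)
    (hp : Prime (1 + i)) : (2 : R) ≠ 0 := by
  intro h4
  have h5 : (2 : R) = -i * (1 + i) ^ 2 := by
    linear_combination (i + 2) * hi
  rw [h5] at h4
  rcases mul_eq_zero.mp h4 with h6 | h6
  · rw [neg_eq_zero] at h6
    rw [h6] at hi
    simp at hi
  · exact hp.ne_zero (pow_eq_zero_iff (by norm_num) |>.mp h6)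

theorem pyth_R {R : Type} [CommRing R] [IsDomain R] [IsLocalRing R] (i : R) (hi : i * i = -1)
    (hp : Prime (1 + i)) : pythagoras R = 3 := by
  apply le_antisymm
  · exact sInf_le ⟨3, by norm_num, rfl, three_squares i hi⟩
  · refine le_sInf ?_
    rintro _ ⟨n, hn, rfl, h⟩
    have hs : IsSumSq (2 * (1 + i)) := by
      have : (2 * (1 + i) : R) = 1 * 1 + (1 * 1 + ((1 + i) * (1 + i) + 0)) := by
        linear_combination -hi
      rw [this]
      exact .sq_add _ (.sq_add _ (.sq_add _ .zero))
    obtain ⟨f, hf⟩ := h _ hs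
    have hno := Pool.Agent.S01012.not_two_squares hi rfl hp
    by_contra hlt
    have hn3 : n < 3 := by
      by_contra h3
      apply hlt
      exact_mod_cast not_lt.mp h3
    interval_cases n
    · apply hno (f 0) 0
      rw [hf]
      simp
    · apply hno (f 0) (f 1)
      rw [hf, Fin.sum_univ_two]

theorem not_square {R : Type} [CommRing R] [IsDomain R] [IsNoetherianRing R] (w : R)
    (hp : Prime w) (K : Type) [Field K] [Algebra R K] [IsFractionRing R K] (y : K)
    (hy : algebraMap R K w = y ^ 2) : False := by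
  obtain ⟨a, b, hb, rfl⟩ := IsFractionRing.div_surjective (A := R) y
  have hb0 : b ≠ 0 := nonZeroDivisors.ne_zero hb
  have hbK : algebraMap R K b ≠ 0 := by
    intro h
    exact hb0 (IsFractionRing.injective R K (h.trans (map_zero _).symm))
  have h1 : w * b ^ 2 = a ^ 2 := by
    apply IsFractionRing.injective R K
    rw [map_mul, map_pow, map_pow, hy]
    field_simp
  have ha0 : a ≠ 0 := by
    rintro rfl
    rw [zero_pow (by norm_num)] at h1
    rcases mul_eq_zero.mp h1 with h | h
    · exact hp.ne_zero h
    · exact hb0 (pow_eq_zero_iff (by norm_num) |>.mp h)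
  have hfa : FiniteMultiplicity w (a ^ 2) :=
    FiniteMultiplicity.of_not_isUnit hp.not_isUnit (pow_ne_zero 2 ha0)
  have hfb : FiniteMultiplicity w (w * b ^ 2) := by rw [h1]; exact hfa
  have hfb1 : FiniteMultiplicity w b := FiniteMultiplicity.of_not_isUnit hp.not_isUnit hb0
  have hfa1 : FiniteMultiplicity w a := FiniteMultiplicity.of_not_isUnit hp.not_isUnit ha0
  have h2 := congrArg (multiplicity w) h1
  rw [multiplicity_mul hp hfb, hfa1.multiplicity_pow hp, hfb1.multiplicity_pow hp,
    multiplicity_self] at h2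
  omega

theorem pyth_K {R : Type} [CommRing R] [IsDomain R] [IsNoetherianRing R] (i : R)
    (hi : i * i = -1) (hp : Prime (1 + i)) (K : Type) [Field K] [Algebra R K]
    [IsFractionRing R K] : pythagoras K = 2 := by
  have hIK : (algebraMap R K i) * (algebraMap R K i) = -1 := by
    rw [← map_mul, hi]; simp
  have h2R := two_ne_zero_of hi hp
  have h2 : (2 : K) ≠ 0 := by
    intro h2
    apply h2R
    apply IsFractionRing.injective R K
    rw [map_ofNat, map_zero]
    exact h2
  have htwo : ∀ x : K, x = ((x + 1) / 2) ^ 2 + (algebraMap R K i * ((x - 1) / 2)) ^ 2 := by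
    intro x
    field_simp
    linear_combination (-(x - 1) ^ 2) * hIK
  apply le_antisymm
  · refine sInf_le ⟨2, by norm_num, rfl, fun x _ => ?_⟩
    refine ⟨![(x + 1) / 2, algebraMap R K i * ((x - 1) / 2)], ?_⟩
    rw [Fin.sum_univ_two]
    simp only [Matrix.cons_val_zero, Matrix.cons_val_one]
    exact htwo x
  · refine le_sInf ?_
    rintro _ ⟨n, hn, rfl, h⟩
    by_contra hlt
    have hn1 : n = 1 := by
      by_contra h3
      apply hlt
      have : 2 ≤ n := by omega
      exact_mod_cast this
    subst hn1
    have hs : IsSumSq (algebraMap R K (1 + i)) := by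
      rw [htwo (algebraMap R K (1 + i)), sq, sq]
      have := IsSumSq.sq_add ((algebraMap R K (1 + i) + 1) / 2)
        (IsSumSq.sq_add (algebraMap R K i * ((algebraMap R K (1 + i) - 1) / 2)) IsSumSq.zero)
      rwa [add_zero] at this
    obtain ⟨f, hf⟩ := h _ hs
    rw [Fin.sum_univ_one] at hf
    exact not_square (1 + i) hp K (f 0) hf

open Polynomial in
theorem example_ring : ∃ (R : Type) (_ : CommRing R) (_ : IsDomain R) (_ : IsRegularLocalRing R),
    ringKrullDim R = 2 ∧ ∃ i : R, i * i = -1 ∧ Prime (1 + i) := by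
  have hdim : ringKrullDim S01012.R = 2 := by
    rw [IsLocalization.AtPrime.ringKrullDim_eq_height S01012.P S01012.R, S01012.P_height]
    rfl
  have hdom : IsDomain S01012.R :=
    IsLocalization.isDomain_localization S01012.P.primeCompl_le_nonZeroDivisors
  have hnoeth : IsNoetherianRing S01012.R :=
    IsLocalization.isNoetherianRing S01012.P.primeCompl S01012.R inferInstance
  have hreg : IsRegularLocalRing S01012.R := by
    apply IsRegularLocalRing.of_spanFinrank_maximalIdeal_le
    rw [hdim, S01012.maxIdeal_eq]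
    have h1 := Submodule.spanFinrank_span_le_ncard_of_finite (R := S01012.R)
      (Set.toFinite {algebraMap GaussianInt[X] S01012.R (C S01012.gpi),
        algebraMap GaussianInt[X] S01012.R X})
    have h2 : ({algebraMap GaussianInt[X] S01012.R (C S01012.gpi),
        algebraMap GaussianInt[X] S01012.R X} : Set S01012.R).ncard ≤ 2 :=
      (Set.ncard_insert_le _ _).trans (by rw [Set.ncard_singleton])
    exact_mod_cast h1.trans h2
  refine ⟨S01012.R, inferInstance, hdom, hreg, hdim, S01012.im, S01012.im_sq, ?_⟩
  rw [← S01012.w_eq]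
  exact S01012.w_prime

/-- If `R` is a Noetherian local domain with an element `i`, `i ^ 2 = -1`, for which `1 + i` is a
prime element, then `p(R) = 3` and `p(K) = 2` for the field of fractions `K`. -/
theorem general (R : Type) [CommRing R] [IsDomain R] [IsLocalRing R] [IsNoetherianRing R] (i : R)
    (hi : i * i = -1) (hp : Prime (1 + i)) (K : Type) [Field K] [Algebra R K]
    [IsFractionRing R K] : pythagoras R = 3 ∧ pythagoras K = 2 :=
  ⟨pyth_R i hi hp, pyth_K i hi hp K⟩

/-- There is a regular local ring of Krull dimension `2` with `p(R) = 3` and `p(K) = 2` for its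
field of fractions `K`. (The same values hold for a whole class of rings, see `general`.) -/
theorem result :
    ∃ (R : Type) (_ : CommRing R) (_ : IsDomain R) (_ : IsRegularLocalRing R),
      ringKrullDim R = 2 ∧
      ∀ (K : Type) [Field K] [Algebra R K] [IsFractionRing R K],
        pythagoras R = 3 ∧ pythagoras K = 2 := by
  obtain ⟨R, h1, h2, h3, hdim, i, hi, hp⟩ := example_ring
  exact ⟨R, h1, h2, h3, hdim, fun K _ _ _ => general R i hi hp K⟩

end Pool.Agent.Results.MP_293fae_al.ThreeAgainstTwo
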