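import Mathlib
import Pool.Agent.Helper71.PY.Asm

/-!
Two-dimensional regular local rings in which `2` is invertible: a diagonal form with unit
coefficients represents the same elements of `R` over `R` and over the field of fractions `K`. In
particular the Pythagoras numbers of `R` and `K` agree.
-/

set_option autoImplicit false

namespace Pool.Agent.Results.MP_293fae_al.TwoInvertible

/-- Let `R` be a regular local ring of Krull dimension `2` in which `2` is invertible and let `K` be
its field of fractions. (1) If `u_1, …, u_n` are units of `R` and `f ∈ R` then `f = ∑ u_i z_i²` has a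
solution in `K` if and only if it has a solution in `R`. (2) For every `n`, every sum of squares in
`R` is a sum of `n` squares if and only if the same holds in `K`. -/
theorem result (R : Type) [CommRing R] [IsDomain R] [IsLocalRing R] [IsNoetherianRing R]
    (hdim : ringKrullDim R = 2)
    (hreg : ∃ a b : R, IsLocalRing.maximalIdeal R = Ideal.span {a, b}) (h2 : IsUnit (2 : R))
    (K : Type) [Field K] [Algebra R K] [IsFractionRing R K] :
    (∀ (n : ℕ) (u : Fin n → R), (∀ i, IsUnit (u i)) → ∀ f : R,
      ((∃ z : Fin n → K, algebraMap R K f = ∑ i, algebraMap R K (u i) * z i ^ 2) ↔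
        ∃ y : Fin n → R, f = ∑ i, u i * y i ^ 2)) ∧
    ∀ n : ℕ, ((∀ x : R, IsSumSq x → ∃ f : Fin n → R, x = ∑ i, f i ^ 2) ↔
      (∀ x : K, IsSumSq x → ∃ f : Fin n → K, x = ∑ i, f i ^ 2)) := by
  refine ⟨fun n u hu f => ⟨fun h => ?_, ?_⟩, fun n => ?_⟩
  · exact Pool.Agent.Helper71.PY.Asm.t_MAIN R hdim hreg h2 K n u hu f h
  · rintro ⟨y, hy⟩
    refine ⟨fun i => algebraMap R K (y i), ?_⟩
    rw [hy, map_sum]
    simp
  · exact Pool.Agent.Helper71.PY.Asm.t_PYTH R hdim hreg h2 K n

end Pool.Agent.Results.MP_293fae_al.TwoInvertible
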